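import Pool.Agent.Q151.Trop.Rado

/-!
# MP_835643_co: stable intersection points on overdetermined tropical intersections

Let `Σ_1, …, Σ_k` be tropical hypersurfaces in `ℝ^n`, `k > n`, such that all stable intersections
of `n` of them are non-empty.  Then every connected component of `|Σ_1| ∩ … ∩ |Σ_k|` contains a
point of the stable intersection of some `n` of them.
-/

set_option autoImplicit false

namespace Pool.Agent.Results.MP_835643_co.StablePoint

open MeasureTheory Module Topology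

/-- The value `c a + ⟨a, x⟩` of a tropical monomial at `x`. -/
def mono {n : ℕ} (c : (Fin n → ℤ) → ℝ) (a : Fin n → ℤ) (x : Fin n → ℝ) : ℝ :=
  c a + ∑ i, (a i : ℝ) * x i

/-- The tropical hypersurface `|Σ|` of `f(x) = max_{a ∈ A} (c a + ⟨a, x⟩)`: the set of points at
which the maximum is attained at least twice. -/
def hyp {n : ℕ} (A : Finset (Fin n → ℤ)) (c : (Fin n → ℤ) → ℝ) : Set (Fin n → ℝ) :=
  {x | ∃ a ∈ A, ∃ b ∈ A, a ≠ b ∧ (∀ d ∈ A, mono c d x ≤ mono c a x) ∧
    ∀ d ∈ A, mono c d x ≤ mono c b x}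

/-- The points that are limits, as `ε → 0+`, of points of `⋂_{j ∈ J} (|Σ_j| + ε v_j)`. -/
def limitPts {n k : ℕ} (A : Fin k → Finset (Fin n → ℤ)) (c : Fin k → (Fin n → ℤ) → ℝ)
    (J : Finset (Fin k)) (v : Fin k → Fin n → ℝ) : Set (Fin n → ℝ) :=
  {p | ∀ δ > (0 : ℝ), ∃ ε₀ > (0 : ℝ), ∀ ε, 0 < ε → ε < ε₀ →
    ∃ x, dist x p < δ ∧ ∀ j ∈ J, x - ε • v j ∈ hyp (A j) (c j)}

/-- The support of the stable intersection of the `Σ_j`, `j ∈ J` (for `|J| = n`): the points that
are limits as above for almost all choices of the vectors `v_j`. -/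
def stable {n k : ℕ} (A : Fin k → Finset (Fin n → ℤ)) (c : Fin k → (Fin n → ℤ) → ℝ)
    (J : Finset (Fin k)) : Set (Fin n → ℝ) :=
  {p | ∀ᵐ v : Fin k → Fin n → ℝ, p ∈ limitPts A c J v}

open Q151.Trop

/-- the functional of an exponent -/
noncomputable def ev {n : ℕ} (s : Fin n → ℤ) : Dual ℝ (Fin n → ℝ) :=
  ∑ i, (s i : ℝ) • LinearMap.proj i

theorem ev_apply {n : ℕ} (s : Fin n → ℤ) (x : Fin n → ℝ) : ev s x = ∑ i, (s i : ℝ) * x i := by
  unfold ev
  rw [LinearMap.sum_apply]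
  rfl

theorem ev_inj {n : ℕ} {s t : Fin n → ℤ} (h : ev s = ev t) : s = t := by
  funext i
  have h1 := congrArg (fun f : Dual ℝ (Fin n → ℝ) => f (Pi.single i 1)) h
  simp only [ev_apply] at h1
  simp only [Pi.single_apply, mul_ite, mul_one, mul_zero, Finset.sum_ite_eq', Finset.mem_univ,
    if_true] at h1
  exact_mod_cast h1

/-- the system of tropical polynomials -/
noncomputable def sys {n k : ℕ} (A : Fin k → Finset (Fin n → ℤ))
    (c : Fin k → (Fin n → ℤ) → ℝ) : Sys (Fin k) (Fin n → ℤ) (Fin n → ℝ) :=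
  ⟨A, fun _ s => ev s, c⟩

variable {n k : ℕ} (A : Fin k → Finset (Fin n → ℤ)) (c : Fin k → (Fin n → ℤ) → ℝ)

theorem val_eq_mono (j : Fin k) (s : Fin n → ℤ) (x : Fin n → ℝ) :
    (sys A c).val j s x = mono (c j) s x := by
  unfold Sys.val mono
  change c j s + ev s x = _
  rw [ev_apply]

theorem L_ne_bot_iff {ι κ E : Type} [NormedAddCommGroup E] [NormedSpace ℝ E]
    (S : Sys ι κ E) (j : ι) (x : E) : S.L j x ≠ ⊥ ↔
      ∃ s ∈ S.act j x, ∃ t ∈ S.act j x, S.a j s ≠ S.a j t := by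
  constructor
  · intro h
    by_contra hcon
    push Not at hcon
    apply h
    unfold Sys.L
    rw [Submodule.span_eq_bot]
    rintro z ⟨s, hs, t, ht, rfl⟩
    rw [hcon s hs t ht, sub_self]
  · rintro ⟨s, hs, t, ht, hst⟩ h
    have h1 : S.a j s - S.a j t ∈ S.L j x := Submodule.subset_span ⟨s, hs, t, ht, rfl⟩
    rw [h, Submodule.mem_bot, sub_eq_zero] at h1
    exact hst h1

theorem hyp_iff (j : Fin k) (x : Fin n → ℝ) : x ∈ hyp (A j) (c j) ↔ (sys A c).L j x ≠ ⊥ := by
  rw [L_ne_bot_iff]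
  constructor
  · rintro ⟨a, ha, b, hb, hab, h1, h2⟩
    refine ⟨a, ⟨ha, fun d hd => ?_⟩, b, ⟨hb, fun d hd => ?_⟩, fun h => hab (ev_inj h)⟩
    · rw [val_eq_mono, val_eq_mono]; exact h1 d hd
    · rw [val_eq_mono, val_eq_mono]; exact h2 d hd
  · rintro ⟨s, hs, t, ht, hst⟩
    refine ⟨s, hs.1, t, ht.1, fun h => hst (by rw [h]), fun d hd => ?_, fun d hd => ?_⟩
    · have := hs.2 d hd
      rwa [val_eq_mono, val_eq_mono] at this
    · have := ht.2 d hd
      rwa [val_eq_mono, val_eq_mono] at this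

/-- the local Hall condition -/
def Hall (J : Finset (Fin k)) (p : Fin n → ℝ) : Prop :=
  ∀ J' ⊆ J, J'.card ≤ finrank ℝ ((sys A c).LJ J' p)

/-- The local Hall condition gives a limit point for all vectors. -/
theorem limit_of_hall (J : Finset (Fin k)) (p : Fin n → ℝ) (h : Hall A c J p)
    (v : Fin k → Fin n → ℝ) : p ∈ limitPts A c J v := by
  classical
  set S := sys A c with hS
  let S' : Sys (Fin k) (Fin n → ℤ) (Fin n → ℝ) :=
    { A := fun i => (A i).filter fun s => s ∈ S.act i p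
      a := fun _ s => ev s
      c := fun i s => - ev s (v i) }
  have hLi : ∀ j ∈ J, S.L j p ≠ ⊥ := by
    intro j hj hbot
    have h1 := h {j} (Finset.singleton_subset_iff.2 hj)
    have h2 : S.LJ {j} p = ⊥ := by
      unfold Sys.LJ
      rw [Finset.sup_singleton, hbot]
    rw [h2, finrank_bot, Finset.card_singleton] at h1
    omega
  have hne : ∀ j ∈ J, (S'.A j).Nonempty := by
    intro j hj
    obtain ⟨s, hs, -⟩ := (L_ne_bot_iff S j p).1 (hLi j hj)
    exact ⟨s, Finset.mem_filter.2 ⟨hs.1, hs⟩⟩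
  have hN : ∀ J' : Finset (Fin k), S'.NJ J' = S.LJ J' p := by
    intro J'
    unfold Sys.NJ Sys.LJ
    apply Finset.sup_congr rfl
    intro i _
    unfold Sys.N Sys.L
    congr 1
    ext z
    constructor
    · rintro ⟨s, hs, t, ht, rfl⟩
      exact ⟨s, (Finset.mem_filter.1 hs).2, t, (Finset.mem_filter.1 ht).2, rfl⟩
    · rintro ⟨s, hs, t, ht, rfl⟩
      exact ⟨s, Finset.mem_filter.2 ⟨hs.1, hs⟩, t, Finset.mem_filter.2 ⟨ht.1, ht⟩, rfl⟩
  obtain ⟨y, hy⟩ := EE_all (ι := Fin k) (κ := Fin n → ℤ) _ (Fin n → ℝ) rfl S' J hne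
    (fun J' hJ' => by rw [hN]; exact h J' hJ')
  have hyL : ∀ j ∈ J, S'.L j y ≠ ⊥ := by
    intro j hj hbot
    have h1 := hy {j} (Finset.singleton_subset_iff.2 hj)
    have h2 : S'.LJ {j} y = ⊥ := by
      unfold Sys.LJ
      rw [Finset.sup_singleton, hbot]
    rw [h2, finrank_bot, Finset.card_singleton] at h1
    omega
  -- small parameters
  have hev : ∀ᶠ ε : ℝ in 𝓝 0, ∀ j ∈ J, S.act j (p + ε • (y - v j)) ⊆ S.act j p := by
    rw [Filter.eventually_all_finset]
    intro j hj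
    have hcont : Filter.Tendsto (fun t : ℝ => p + t • (y - v j)) (𝓝 0) (𝓝 p) := by
      have : Continuous (fun t : ℝ => p + t • (y - v j)) := by fun_prop
      have h := this.tendsto 0
      simpa using h
    filter_upwards [hcont.eventually (S.near {j} p)] with t ht
    exact ht j (Finset.mem_singleton_self j)
  obtain ⟨ε₁, hε₁, hε₁'⟩ := Metric.eventually_nhds_iff.1 hev
  intro δ hδ
  refine ⟨min ε₁ (δ / (‖y‖ + 1)), lt_min hε₁ (by positivity), ?_⟩
  intro ε hε hεlt
  have h1 := hε₁' (y := ε) (by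
    rw [Real.dist_eq, sub_zero, abs_of_pos hε]; exact hεlt.trans_le (min_le_left _ _))
  refine ⟨p + ε • y, ?_, ?_⟩
  · rw [dist_eq_norm, add_sub_cancel_left, norm_smul, Real.norm_eq_abs, abs_of_pos hε]
    have h2 : ε < δ / (‖y‖ + 1) := hεlt.trans_le (min_le_right _ _)
    rw [lt_div_iff₀ (by positivity)] at h2
    nlinarith [norm_nonneg y]
  · intro j hj
    have hx : p + ε • y - ε • v j = p + ε • (y - v j) := by rw [smul_sub]; abel
    rw [hx, hyp_iff, L_ne_bot_iff]
    obtain ⟨s, hs, t, ht, hst⟩ := (L_ne_bot_iff S' j y).1 (hyL j hj)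
    have hval : ∀ r, S.val j r (p + ε • (y - v j)) = S.val j r p + ε * ev r (y - v j) := by
      intro r
      unfold Sys.val
      change c j r + ev r (p + ε • (y - v j)) = c j r + ev r p + ε * ev r (y - v j)
      rw [map_add (ev r) p, map_smul, smul_eq_mul]
      ring
    have hval' : ∀ r, S'.val j r y = ev r (y - v j) := by
      intro r
      unfold Sys.val
      change - ev r (v j) + ev r y = _
      rw [map_sub]
      ring
    have hkey : ∀ s ∈ S'.act j y, s ∈ S.act j (p + ε • (y - v j)) := by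
      intro s hs
      have hsp := (Finset.mem_filter.1 hs.1).2
      obtain ⟨r0, hr0⟩ := S.act_nonempty (i := j) ⟨s, hsp.1⟩ (p + ε • (y - v j))
      have hr0p := h1 j hj hr0
      have h2 := hs.2 r0 (Finset.mem_filter.2 ⟨hr0.1, hr0p⟩)
      rw [hval', hval'] at h2
      have h3 : S.val j r0 (p + ε • (y - v j)) ≤ S.val j s (p + ε • (y - v j)) := by
        rw [hval, hval, S.val_eq hr0p hsp]
        have := mul_le_mul_of_nonneg_left h2 hε.le
        linarith
      exact ⟨hsp.1, fun r hr => (hr0.2 r hr).trans h3⟩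
    exact ⟨s, hkey s hs, t, hkey t ht, hst⟩

/-- Generic vectors. -/
theorem generic (n k : ℕ) : ∀ᵐ v : Fin k → Fin n → ℝ, ∀ (J : Finset (Fin k))
    (σ : Fin k → (Fin n → ℤ) × (Fin n → ℤ)), (∀ j ∈ J, (σ j).1 ≠ (σ j).2) →
    (∃ w : Fin k → ℝ, (∃ j ∈ J, w j ≠ 0) ∧ ∑ j ∈ J, w j • (ev (σ j).1 - ev (σ j).2) = 0) →
    ∃ w : Fin k → ℝ, ∑ j ∈ J, w j • (ev (σ j).1 - ev (σ j).2) = 0 ∧
      ∑ j ∈ J, w j * (ev (σ j).1 - ev (σ j).2) (v j) ≠ 0 := by
  classical
  rw [ae_all_iff]
  intro J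
  rw [ae_all_iff]
  intro σ
  by_cases h1 : ∀ j ∈ J, (σ j).1 ≠ (σ j).2
  swap
  · exact Filter.Eventually.of_forall fun v h => absurd h h1
  by_cases h2 : ∃ w : Fin k → ℝ, (∃ j ∈ J, w j ≠ 0) ∧
      ∑ j ∈ J, w j • (ev (σ j).1 - ev (σ j).2) = 0
  swap
  · exact Filter.Eventually.of_forall fun v _ h => absurd h h2
  obtain ⟨w, ⟨j0, hj0, hwj0⟩, hw⟩ := h2
  let φ : (Fin k → Fin n → ℝ) →ₗ[ℝ] ℝ :=
    ∑ j ∈ J, w j • (ev (σ j).1 - ev (σ j).2).comp (LinearMap.proj j)
  have hφ : ∀ v, φ v = ∑ j ∈ J, w j * (ev (σ j).1 - ev (σ j).2) (v j) := by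
    intro v
    change (∑ j ∈ J, w j • (ev (σ j).1 - ev (σ j).2).comp (LinearMap.proj j)) v = _
    rw [LinearMap.sum_apply]
    rfl
  have hker : LinearMap.ker φ ≠ ⊤ := by
    intro htop
    have hz : ev (σ j0).1 - ev (σ j0).2 ≠ 0 := fun h => h1 j0 hj0 (ev_inj (sub_eq_zero.1 h))
    obtain ⟨x, hx⟩ : ∃ x, (ev (σ j0).1 - ev (σ j0).2) x ≠ 0 := by
      by_contra hcon
      push Not at hcon
      exact hz (LinearMap.ext fun x => hcon x)
    have h3 : Pi.single j0 x ∈ LinearMap.ker φ := by rw [htop]; trivial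
    rw [LinearMap.mem_ker, hφ, Finset.sum_eq_single j0] at h3
    · rw [Pi.single_eq_same] at h3
      rcases mul_eq_zero.1 h3 with h | h
      · exact hwj0 h
      · exact hx h
    · intro j _ hj
      rw [Pi.single_eq_of_ne hj, map_zero, mul_zero]
    · intro h; exact absurd hj0 h
  have hnull := Measure.addHaar_submodule (volume : Measure (Fin k → Fin n → ℝ))
    (LinearMap.ker φ) hker
  have hae := measure_eq_zero_iff_ae_notMem.1 hnull
  filter_upwards [hae] with v hv _ _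
  refine ⟨w, hw, ?_⟩
  rw [← hφ]
  intro h0
  exact hv (LinearMap.mem_ker.2 h0)

/-- For generic vectors the limit points satisfy the local Hall condition. -/
theorem hall_of_limit : ∀ᵐ v : Fin k → Fin n → ℝ, ∀ (J : Finset (Fin k)) (p : Fin n → ℝ),
    p ∈ limitPts A c J v → Hall A c J p := by
  classical
  filter_upwards [generic n k] with v hv J p hp
  set S := sys A c with hS
  intro J' hJ'
  by_contra hcon
  push Not at hcon
  rw [← hS] at hcon
  obtain ⟨ρ, hρ, hρ'⟩ := Metric.eventually_nhds_iff.1 (S.near Finset.univ p)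
  obtain ⟨ε₀, hε₀, h⟩ := hp (ρ / 2) (by positivity)
  set ε := min (ε₀ / 2) (ρ / (4 * (‖v‖ + 1))) with hε
  have hεpos : 0 < ε := lt_min (by positivity) (by positivity)
  have hεlt : ε < ε₀ := (min_le_left _ _).trans_lt (by linarith)
  obtain ⟨x, hx, hxJ⟩ := h ε hεpos hεlt
  have hnear : ∀ j, dist (x - ε • v j) p < ρ := by
    intro j
    rw [dist_eq_norm] at hx ⊢
    have h1 : ‖ε • v j‖ < ρ / 2 := by
      rw [norm_smul, Real.norm_eq_abs, abs_of_pos hεpos]
      have h2 : ‖v j‖ ≤ ‖v‖ := norm_le_pi_norm v j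
      have h3 : ε ≤ ρ / (4 * (‖v‖ + 1)) := min_le_right _ _
      rw [le_div_iff₀ (by positivity)] at h3
      have h4 : ε * ‖v j‖ ≤ ε * ‖v‖ := mul_le_mul_of_nonneg_left h2 hεpos.le
      nlinarith
    calc ‖x - ε • v j - p‖ = ‖(x - p) - ε • v j‖ := by congr 1; abel
      _ ≤ ‖x - p‖ + ‖ε • v j‖ := norm_sub_le _ _
      _ < ρ := by linarith
  have hσ : ∀ j, ∃ σ : (Fin n → ℤ) × (Fin n → ℤ), j ∈ J → σ.1 ≠ σ.2 ∧
      σ.1 ∈ S.act j (x - ε • v j) ∧ σ.2 ∈ S.act j (x - ε • v j) := by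
    intro j
    by_cases hj : j ∈ J
    · obtain ⟨a, ha, b, hb, hab, h1, h2⟩ := hxJ j hj
      refine ⟨(a, b), fun _ => ⟨hab, ⟨ha, fun d hd => ?_⟩, ⟨hb, fun d hd => ?_⟩⟩⟩
      · rw [hS, val_eq_mono, val_eq_mono]; exact h1 d hd
      · rw [hS, val_eq_mono, val_eq_mono]; exact h2 d hd
    · exact ⟨(0, 0), fun h => absurd h hj⟩
  choose σ hσ using hσ
  have hz : ∀ j ∈ J, ev (σ j).1 - ev (σ j).2 ∈ S.L j p ∧
      (ev (σ j).1 - ev (σ j).2) (x - p) = ε * (ev (σ j).1 - ev (σ j).2) (v j) := by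
    intro j hj
    obtain ⟨-, h1, h2⟩ := hσ j hj
    have h3 := hρ' (hnear j) j (Finset.mem_univ j)
    refine ⟨Submodule.subset_span ⟨_, h3 h1, _, h3 h2, rfl⟩, ?_⟩
    have h4 : ev (σ j).1 - ev (σ j).2 ∈ S.L j (x - ε • v j) :=
      Submodule.subset_span ⟨_, h1, _, h2, rfl⟩
    have h5 := S.fact1 h3 h4
    have h6 : x - ε • v j - p = (x - p) - ε • v j := by abel
    rw [h6, map_sub, map_smul, smul_eq_mul] at h5
    linarith
  -- a linear relation
  have hrel : ∃ w : Fin k → ℝ, (∃ j ∈ J', w j ≠ 0) ∧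
      ∑ j ∈ J', w j • (ev (σ j).1 - ev (σ j).2) = 0 := by
    by_contra hno
    have hli : LinearIndependent ℝ (fun j : J' => ev (σ j).1 - ev (σ j).2) := by
      rw [Fintype.linearIndependent_iff]
      intro g hg j0
      by_contra hj0
      apply hno
      refine ⟨fun j => if h : j ∈ J' then g ⟨j, h⟩ else 0, ⟨j0, j0.2, ?_⟩, ?_⟩
      · simpa using hj0
      · rw [← Finset.sum_coe_sort J', ← hg]
        apply Finset.sum_congr rfl
        intro j _
        simp
    have h1 := finrank_span_eq_card hli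
    rw [Fintype.card_coe] at h1
    have h2 : Submodule.span ℝ (Set.range fun j : J' => ev (σ j).1 - ev (σ j).2) ≤
        S.LJ J' p := by
      rw [Submodule.span_le]
      rintro z ⟨j, rfl⟩
      exact S.L_le_LJ j.2 p (hz j (hJ' j.2)).1
    have h3 := Submodule.finrank_mono h2
    omega
  obtain ⟨w, hw1, hw2⟩ := hv J' σ (fun j hj => (hσ j (hJ' hj)).1) hrel
  apply hw2
  have h1 : (∑ j ∈ J', w j • (ev (σ j).1 - ev (σ j).2)) (x - p) = 0 := by rw [hw1]; rfl
  rw [LinearMap.sum_apply] at h1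
  have h2 : ε * ∑ j ∈ J', w j * (ev (σ j).1 - ev (σ j).2) (v j) = 0 := by
    rw [Finset.mul_sum, ← h1]
    apply Finset.sum_congr rfl
    intro j hj
    rw [LinearMap.smul_apply, (hz j (hJ' hj)).2, smul_eq_mul]
    ring
  exact (mul_eq_zero.1 h2).resolve_left hεpos.ne'

theorem stable_eq (J : Finset (Fin k)) : stable A c J = {p | Hall A c J p} := by
  ext p
  constructor
  · intro hp
    obtain ⟨v, h1, h2⟩ := ((hall_of_limit A c).and hp).exists
    exact h1 J p h2
  · intro hp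
    change ∀ᵐ v : Fin k → Fin n → ℝ, p ∈ limitPts A c J v
    exact Filter.Eventually.of_forall fun v => limit_of_hall A c J p hp v

/-- **The answer to Q1 is yes.**  (a) The stable intersection does not depend on the choice of
generic vectors: for almost all `v` the set of limit points is `stable A c J`.  (b) Let `k > n` and
suppose that `stable A c J` is non-empty for all `J` with `n` elements.  Then the connected
component of every point `p` of `⋂ i, |Σ_i|` in this set contains a point of `stable A c J` for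
some `J` with `n` elements. -/
theorem result (n k : ℕ) (hk : n < k) (A : Fin k → Finset (Fin n → ℤ))
    (c : Fin k → (Fin n → ℤ) → ℝ) :
    (∀ J : Finset (Fin k), ∀ᵐ v : Fin k → Fin n → ℝ, limitPts A c J v = stable A c J) ∧
    ((∀ J : Finset (Fin k), J.card = n → (stable A c J).Nonempty) →
      ∀ p ∈ ⋂ i, hyp (A i) (c i), ∃ J : Finset (Fin k), J.card = n ∧
        (connectedComponentIn (⋂ i, hyp (A i) (c i)) p ∩ stable A c J).Nonempty) := by
  classical
  refine ⟨?_, ?_⟩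
  · intro J
    filter_upwards [hall_of_limit A c] with v hv
    rw [stable_eq]
    ext p
    exact ⟨fun h => hv J p h, fun h => limit_of_hall A c J p h v⟩
  intro hst p hp
  have hZ : (⋂ i, hyp (A i) (c i)) = (sys A c).Z Finset.univ := by
    ext x
    simp only [Set.mem_iInter, hyp_iff]
    exact ⟨fun h i _ => h i, fun h i => h i (Finset.mem_univ i)⟩
  rw [hZ] at hp ⊢
  have hne : ∀ i ∈ (Finset.univ : Finset (Fin k)), ((sys A c).A i).Nonempty := by
    intro i _
    obtain ⟨s, hs, -⟩ := (L_ne_bot_iff _ _ _).1 (hp i (Finset.mem_univ i))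
    exact ⟨s, hs.1⟩
  -- global Hall condition
  have hglob : ∀ J : Finset (Fin k), J.card = n → ∀ J' ⊆ J,
      J'.card ≤ finrank ℝ ((sys A c).NJ J') := by
    intro J hJ J' hJ'
    obtain ⟨q, hq⟩ := hst J hJ
    rw [stable_eq] at hq
    refine (hq J' hJ').trans (Submodule.finrank_mono ?_)
    apply Finset.sup_mono_fun
    intro i _
    apply Submodule.span_mono
    rintro z ⟨s, hs, t, ht, rfl⟩
    exact ⟨s, hs.1, t, ht.1, rfl⟩
  have hglob2 : ∀ J : Finset (Fin k),
      (n : ℤ) - k ≤ (finrank ℝ ((sys A c).NJ J) : ℤ) - J.card := by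
    intro J
    rcases le_total J.card n with hJ | hJ
    · obtain ⟨J', hJJ', hJ'⟩ := Finset.exists_superset_card_eq hJ
        (by rw [Fintype.card_fin]; exact hk.le)
      have := hglob J' hJ' J hJJ'
      omega
    · obtain ⟨J', hJJ', hJ'⟩ := Finset.exists_subset_card_eq hJ
      have h1 := hglob J' hJ' J' subset_rfl
      have h2 : finrank ℝ ((sys A c).NJ J') ≤ finrank ℝ ((sys A c).NJ J) :=
        Submodule.finrank_mono (Finset.sup_mono hJJ')
      have h3 : J.card ≤ k := by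
        have := Finset.card_le_univ J
        rwa [Fintype.card_fin] at this
      omega
  obtain ⟨q, hq, J0, -, hgood⟩ := (sys A c).core Finset.univ Finset.univ subset_rfl hne
    (fun m _ => EE_all m) p hp
  have hgood2 : (sys A c).Good ((n : ℤ) - (Finset.univ : Finset (Fin k)).card) Finset.univ q := by
    intro J hJ
    have h1 := hgood J hJ
    have h2 := hglob2 J0
    rw [Finset.card_univ, Fintype.card_fin]
    omega
  obtain ⟨J, -, hJc, hJH⟩ := (sys A c).rado Finset.univ q n hgood2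
  refine ⟨J, hJc, q, hq, ?_⟩
  rw [stable_eq]
  exact hJH

end Pool.Agent.Results.MP_835643_co.StablePoint
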